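import Pool.Agent.N181.TD.Pull

/-!
Polynomial coverings of the line with exactly one point above each point of bad reduction.
-/

set_option autoImplicit false
set_option linter.all false

open Polynomial IsDedekindDomain WeierstrassCurve WeierstrassCurve.Affine
open scoped Classical

namespace Pool.Agent.N181.TD

open Pool.Agent.N181.P3 (hb hb_map hb_sum)
open Pool.Agent.N181.P8 (sep_map exists_lift finite_mid TateQ tate_desc OneAbove deg_dvd
  irr_of_coprime)
open Pool.Agent.N181.P9 (tateAt_two two_map)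
open Pool.Agent.N181.TC (Full2 NF H H_sub_sq lin_eq map_P Stable2 exists_nf2 surfF stable_coprime)
open Pool.Agent.X243.Gen (pb pb_sum pb_mul pb_C pb_one pb_pow pb_lin pb_map pb_frac pb_ne exists_psi
  natDegree_pb root_of_prime form_cop natDegree_pb_le)
open Pool.Agent.TH115.GD

theorem odd_of_dvd {n e : ℕ} (h2 : ¬ 2 ∣ n) (he : e ∣ n) : Odd e := by
  rw [← Nat.not_even_iff_odd, even_iff_two_dvd]
  exact fun h => h2 (h.trans he)

section defs

variable {k : Type} [Field k]

/-- Exactly one closed point of the `t`-line lies above the closed point `π = 0` of the `s`-line for the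
map `s = q(t)`, `q` a polynomial: the point `ρ = 0`, with ramification index `e` and residue degree
`f`. -/
def OnePoint (q π : k[X]) : Prop :=
  ∃ (ρ : k[X]) (e f : ℕ) (u : k), u ≠ 0 ∧ Irreducible ρ ∧ ρ.Separable ∧ e * f = q.natDegree ∧
    ρ.natDegree = f * π.natDegree ∧ π.comp q = C u * ρ ^ e

/-- `q` is a polynomial of odd degree such that the map `s = q(t)` has exactly one point above each finite
place of bad reduction of `y² = x (x - a) (x - b)`. -/
structure PolyCover (q a b : k[X]) : Prop where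
  odd : ¬ 2 ∣ q.natDegree
  fin : ∀ π : k[X], Irreducible π → π ∣ a * b * (a - b) → OnePoint q π

theorem pb_comp (q π : k[X]) : pb q 1 π = π.comp q := by
  rw [pb_sum, comp, eval₂_eq_sum_range]
  exact Finset.sum_congr rfl fun i _ => by rw [one_pow, mul_one]

theorem hb_comp {q a : k[X]} (ha : a.natDegree ≤ 2) : hb q 1 2 a = a.comp q := by
  rw [hb_sum _ _ ha, comp, eval₂_eq_sum_range' C (Nat.lt_succ_of_le ha) q]
  exact Finset.sum_congr rfl fun i _ => by rw [one_pow, mul_one]

theorem OnePoint.above {q π : k[X]} (h : OnePoint q π) : OneAbove q 1 q.natDegree π := by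
  obtain ⟨ρ, e, f, u, h1, h2, h3, h4, h5, h6⟩ := h
  exact ⟨ρ, e, f, u, h1, h2, h3, h4, h5, by rw [pb_comp]; exact h6⟩

end defs

section overM

variable {k M : Type} [Field k] [Field M] [Algebra k M] [FiniteDimensional k M]

/-- The form of a root. -/
theorem form_overR {q r : k[X]} {n : ℕ} (h2n : ¬ 2 ∣ n)
    (hn : Nat.Coprime n (Module.finrank k M))
    (hco : IsCoprime q r) (hq : 0 < q.natDegree) (hqn : q.natDegree ≤ n) (hrn : r.natDegree ≤ n)
    {π : k[X]} (hπ : Irreducible π)
    (hπs : π.Separable) (h1 : OneAbove q r n π) (hs : (π.map (algebraMap k M)).Splits)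
    {ξ : M} (hξ : (π.map (algebraMap k M)).IsRoot ξ) :
    PowForm (q.map (algebraMap k M) - C ξ * r.map (algebraMap k M)) n := by
  obtain ⟨ρ, e, f, u, hu, hρ, hρs, hef, hdeg, hpb⟩ := h1
  have inj := (algebraMap k M).injective
  set q1 := q.map (algebraMap k M) with hq1
  set r1 := r.map (algebraMap k M) with hr1
  have hn0 : 0 < n := hq.trans_le hqn
  have hco1 : IsCoprime q1 r1 := hco.map (mapRingHom (algebraMap k M))
  have hq1d : 0 < q1.natDegree := by rw [hq1, natDegree_map]; exact hq
  have hpi0 : π.map (algebraMap k M) ≠ 0 := (Polynomial.map_ne_zero_iff inj).2 hπ.ne_zero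
  obtain ⟨π', hπ'⟩ := dvd_iff_isRoot.2 hξ
  have hπ'0 : π' ≠ 0 := by
    rintro rfl
    rw [mul_zero] at hπ'
    exact hpi0 hπ'
  have hπ's : π'.Splits := hs.of_dvd hpi0 ⟨_, by rw [mul_comm]; exact hπ'⟩
  have hd1 : π.natDegree = 1 + π'.natDegree := by
    have := congrArg natDegree hπ'
    rw [natDegree_map, natDegree_mul (X_sub_C_ne_zero ξ) hπ'0, natDegree_X_sub_C] at this
    exact this
  set F := q1 - C ξ * r1 with hF
  have hpb1 : F * pb q1 r1 π' = C (algebraMap k M u) * (ρ.map (algebraMap k M)) ^ e := by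
    have := congrArg (Polynomial.map (algebraMap k M)) hpb
    rw [pb_map, hπ', pb_mul, pb_lin, Polynomial.map_mul, Polynomial.map_pow, map_C] at this
    exact this
  have hu1 : algebraMap k M u ≠ 0 := (map_ne_zero_iff _ inj).2 hu
  have hρ10 : ρ.map (algebraMap k M) ≠ 0 := (Polynomial.map_ne_zero_iff inj).2 hρ.ne_zero
  have hP0 : pb q1 r1 π' ≠ 0 := pb_ne hco1 hq1d hπ'0
  have hF0 : F ≠ 0 := by
    intro h0
    rw [h0, zero_mul] at hpb1
    exact (mul_ne_zero (C_ne_zero.2 hu1) (pow_ne_zero e hρ10)) hpb1.symm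
  -- the degree
  have hFn : F.natDegree = n := by
    have h1 := congrArg natDegree hpb1
    rw [natDegree_mul hF0 hP0, natDegree_C_mul hu1, natDegree_pow, natDegree_map, hdeg, hd1] at h1
    have h2 : (pb q1 r1 π').natDegree ≤ n * π'.natDegree := natDegree_pb_le
      (by rw [hq1, natDegree_map]; exact hqn) (by rw [hr1, natDegree_map]; exact hrn) π'
    have h3 : F.natDegree ≤ n := by
      refine (natDegree_sub_le _ _).trans (max_le (by rw [hq1, natDegree_map]; exact hqn) ?_)
      exact (natDegree_C_mul_le _ _).trans (by rw [hr1, natDegree_map]; exact hrn)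
    have h4 : e * (f * (1 + π'.natDegree)) = n + n * π'.natDegree := by
      rw [← mul_assoc, hef]; ring
    rw [h4] at h1
    omega
  have hFu : ¬ IsUnit F := by
    intro h
    have := natDegree_eq_zero_of_isUnit h
    omega
  obtain ⟨g, hg, hgF⟩ := WfDvdMonoid.exists_irreducible_factor hFu hF0
  have hcu : IsUnit (C (algebraMap k M u) : M[X]) := isUnit_C.2 (isUnit_iff_ne_zero.2 hu1)
  have hgρ : g ∣ ρ.map (algebraMap k M) := by
    have h1 : g ∣ C (algebraMap k M u) * (ρ.map (algebraMap k M)) ^ e := by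
      rw [← hpb1]
      exact hgF.mul_right _
    exact hg.prime.dvd_of_dvd_pow (hcu.dvd_mul_left.1 h1)
  -- the degree of `g`
  have hfg : f ∣ g.natDegree := by
    have h1 := deg_dvd hρ hg hgρ
    rw [hdeg] at h1
    have h2 : f ∣ g.natDegree * Module.finrank k M := (dvd_mul_right f _).trans h1
    refine Nat.Coprime.dvd_of_dvd_mul_right ?_ h2
    exact Nat.Coprime.coprime_dvd_left ⟨e, by rw [mul_comm]; exact hef.symm⟩ hn
  -- `g` does not divide the other factors
  have hgP : ¬ g ∣ pb q1 r1 π' := by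
    intro h
    obtain ⟨ξ', hξ', h1⟩ := root_of_prime (RingHom.id M) hπ'0 hπ's hg.prime
      (by rw [Polynomial.map_id]; exact h)
    have hne : ξ ≠ ξ' := by
      rintro rfl
      have h2 : (X - C ξ) ^ 2 ∣ π.map (algebraMap k M) := by
        rw [hπ', pow_two]
        exact mul_dvd_mul_left _ (dvd_iff_isRoot.2 hξ')
      have h3 := (hπs.map (f := algebraMap k M)).squarefree (X - C ξ) (by rwa [pow_two] at h2)
      exact (irreducible_X_sub_C ξ).not_isUnit h3
    exact hg.not_isUnit (form_cop (RingHom.id M) hco1 hne hgF h1)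
  have hge : g ^ e ∣ F := by
    apply hg.prime.pow_dvd_of_dvd_mul_right e hgP
    rw [hpb1]
    exact (pow_dvd_pow_of_dvd hgρ e).mul_left _
  have hassoc : Associated (g ^ e) F := by
    apply associated_of_dvd_of_natDegree_le hge hF0
    rw [natDegree_pow, hFn, ← hef]
    exact Nat.mul_le_mul_left e (Nat.le_of_dvd hg.natDegree_pos hfg)
  obtain ⟨x, hx⟩ := hassoc
  obtain ⟨v, hv, hvx⟩ := Polynomial.isUnit_iff.1 x.isUnit
  refine ⟨v, g, e, hv.ne_zero, hg, hρs.map.of_dvd hgρ, odd_of_dvd h2n ⟨f, hef.symm⟩, ?_, hFn⟩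
  rw [← hx, ← hvx, mul_comm]

end overM

section main

variable {L L' K F : Type} [Field L] [Field L'] [Field K] [Field F]
  [Algebra L L'] [Algebra L[X] K] [Algebra L'[X] F] [IsFractionRing L'[X] F] [Algebra K F]

set_option maxHeartbeats 4000000 in
theorem tate_fullR (hT : IsTower L L' K F) {a b Q R : L[X]} (hB : Full2 a b)
    {St : IntermediateField L L' → Prop} (hSt : Stable2 St) (hbot : St ⊥) {n : ℕ} (hn : ¬ 2 ∣ n)
    (hco : IsCoprime Q R)
    (hf : ∀ M : IntermediateField L L', St M → ((a * b * (a - b)).map (algebraMap L M)).Splits →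
      FibR (Q.map (algebraMap L M)) (R.map (algebraMap L M)) n (a.map (algebraMap L M))
        (b.map (algebraMap L M))) :
    TateQ (F := F) 2 L' (surfF K Q R a b) := by
  haveI := hT.sep
  haveI := hT.fracK
  haveI : IsSepClosed L' := IsSepClosure.sep_closed L
  haveI : IsSepClosure K (Sep F) := sepKΩ hT.map
  haveI : Algebra.IsSeparable K (Sep F) := IsSepClosure.separable
  haveI : IsGalois K (Sep F) := inferInstance
  have hpres : Preserves K F (Sep F) := preserves hT.map
  obtain ⟨M, hM, hMs, α, β, μ, p, q, r, hnf, hμ⟩ := exists_nf2 (L' := L') hB hSt hbot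
  haveI := hSt.fin M hM
  have hFM := hf M hM hMs
  -- the fields
  obtain ⟨i₁, hi₁⟩ := exists_lift (K := K) (K₁ := FractionRing M[X]) (algebraMap L M)
  obtain ⟨i₂, hi₂⟩ := exists_lift (K := FractionRing M[X]) (K₁ := F) (algebraMap M L')
  letI : Algebra K (FractionRing M[X]) := i₁.toAlgebra
  letI : Algebra (FractionRing M[X]) F := i₂.toAlgebra
  have hKK : ∀ p : L[X], algebraMap K (FractionRing M[X]) (algebraMap L[X] K p) =
      algebraMap M[X] (FractionRing M[X]) (p.map (algebraMap L M)) := hi₁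
  haveI : IsScalarTower K (FractionRing M[X]) F := by
    refine IsScalarTower.of_algebraMap_eq fun x => ?_
    obtain ⟨g, h, hh, rfl⟩ := IsFractionRing.div_surjective (A := L[X]) x
    have key : ∀ g : L[X], algebraMap K F (algebraMap L[X] K g) =
        i₂ (i₁ (algebraMap L[X] K g)) := by
      intro g
      rw [hT.map, hi₁, hi₂, Polynomial.map_map]
      rfl
    show algebraMap K F _ = i₂ (i₁ _)
    rw [map_div₀, map_div₀, map_div₀, key, key]
  haveI : IsSepClosure M L' := ⟨IsSepClosure.sep_closed L, by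
    haveI : Algebra.IsSeparable L L' := IsSepClosure.separable
    exact Algebra.isSeparable_tower_top_of_isSeparable L M L'⟩
  have hT1 : IsTower M L' (FractionRing M[X]) F := ⟨inferInstance, inferInstance, hi₂⟩
  haveI : FiniteDimensional K (FractionRing M[X]) := finite_mid hKK
  -- the coefficients
  have eA : algebraMap K (FractionRing M[X]) (algebraMap L[X] K (hb Q R 2 a)) =
      algebraMap M[X] (FractionRing M[X]) (hb (Q.map (algebraMap L M)) (R.map (algebraMap L M))
        2 (a.map (algebraMap L M))) := by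
    rw [hKK, hb_map]
  have eB : algebraMap K (FractionRing M[X]) (algebraMap L[X] K (hb Q R 2 b)) =
      algebraMap M[X] (FractionRing M[X]) (hb (Q.map (algebraMap L M)) (R.map (algebraMap L M))
        2 (b.map (algebraMap L M))) := by
    rw [hKK, hb_map]
  have h1 := tateAt_two (tate_nfR (K := FractionRing M[X]) (F := F) hT1
    (hB.map (algebraMap L M)) hnf hμ hn (hco.map (mapRingHom (algebraMap L M))) hFM)
  refine tate_desc (K₁ := FractionRing M[X]) hpres ?_
  have e : (surfF K Q R a b).map (algebraMap K (FractionRing M[X])) =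
      crv (algebraMap M[X] (FractionRing M[X]) (hb (Q.map (algebraMap L M))
        (R.map (algebraMap L M)) 2 (a.map (algebraMap L M))))
        (algebraMap M[X] (FractionRing M[X]) (hb (Q.map (algebraMap L M))
          (R.map (algebraMap L M)) 2 (b.map (algebraMap L M)))) := by
    rw [← eA, ← eB]
    ext
    · exact map_zero _
    · show algebraMap K (FractionRing M[X]) (-(_ + _)) = -(_ + _)
      rw [map_neg, map_add]
    · exact map_zero _
    · show algebraMap K (FractionRing M[X]) (_ * _) = _ * _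
      rw [map_mul]
    · exact map_zero _
  rw [e]
  exact h1

end main

section main2

variable {k L L' K F : Type} [Field k] [Field L] [Field L'] [Field K] [Field F]
  [Algebra k L] [FiniteDimensional k L] [Algebra L L']
  [Algebra L[X] K] [Algebra L'[X] F] [IsFractionRing L'[X] F] [Algebra K F]

/-- The generic fibre of the pullback by `s = q(t)` of `y² = x (x - a) (x - b)`, over `K = L(t)`. -/
noncomputable abbrev surfP (K : Type) [Field K] [Algebra L[X] K] (q a b : L[X]) :
    WeierstrassCurve K :=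
  crv (algebraMap L[X] K (a.comp q)) (algebraMap L[X] K (b.comp q))

theorem mainP (hT : IsTower L L' K F) {a b q : k[X]} (hB : Full2 a b)
    (hC : PolyCover q a b) (hn : Nat.Coprime q.natDegree (Module.finrank k L)) :
    TateQ (F := F) 2 L' (surfP K (q.map (algebraMap k L)) (a.map (algebraMap k L))
      (b.map (algebraMap k L))) := by
  haveI := hT.sep
  have hBL := hB.map (algebraMap k L)
  have hq0 : 0 < q.natDegree := by
    rcases Nat.eq_zero_or_pos q.natDegree with h | h
    · exact absurd (h ▸ dvd_zero 2) hC.odd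
    · exact h
  have e : surfP K (q.map (algebraMap k L)) (a.map (algebraMap k L)) (b.map (algebraMap k L)) =
      surfF K (q.map (algebraMap k L)) 1 (a.map (algebraMap k L)) (b.map (algebraMap k L)) := by
    unfold surfP surfF
    rw [hb_comp hBL.da, hb_comp hBL.db]
  rw [e]
  refine tate_fullR (n := q.natDegree) hT hBL (stable_coprime hC.odd)
    ⟨inferInstance, by rw [IntermediateField.finrank_bot]; exact Nat.coprime_one_right _⟩ hC.odd
    isCoprime_one_right ?_
  rintro M ⟨hMf, hMn⟩ hMs
  letI : Algebra k M := ((algebraMap L M).comp (algebraMap k L)).toAlgebra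
  haveI : IsScalarTower k L M := IsScalarTower.of_algebraMap_eq fun x => rfl
  have ekM : algebraMap k M = (algebraMap L M).comp (algebraMap k L) := rfl
  haveI : FiniteDimensional k M := Module.Finite.trans L M
  have hnM : Nat.Coprime q.natDegree (Module.finrank k M) := by
    rw [← Module.finrank_mul_finrank k L M]
    exact Nat.Coprime.mul_right hn hMn
  rw [map_P, Polynomial.map_map, ← ekM] at hMs
  rw [Polynomial.map_map, Polynomial.map_map, Polynomial.map_map, ← ekM, Polynomial.map_one]
  have hP0 := hB.sep.ne_zero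
  have hM0 : (a * b * (a - b)).map (algebraMap k M) ≠ 0 :=
    (Polynomial.map_ne_zero_iff (algebraMap k M).injective).2 hP0
  refine ⟨fun ξ hξ => ?_, fun _ => Or.inl rfl⟩
  rw [map_P] at hξ
  have hint : IsIntegral k ξ := IsIntegral.of_finite k ξ
  have hd : minpoly k ξ ∣ a * b * (a - b) := by
    apply minpoly.dvd
    rw [← eval_map_algebraMap]
    exact hξ
  have hirr := minpoly.irreducible hint
  have h := form_overR (r := 1) hC.odd hnM isCoprime_one_right hq0 le_rfl
    (by rw [natDegree_one]; exact Nat.zero_le _) hirr (hB.sep.of_dvd hd) (hC.fin _ hirr hd).above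
    (hMs.of_dvd hM0 ((mapRingHom (algebraMap k M)).map_dvd hd)) (ξ := ξ) (by
      rw [IsRoot.def, eval_map_algebraMap]
      exact minpoly.aeval k ξ)
  rw [Polynomial.map_one] at h
  exact h

end main2

section tower

variable {k : Type} [Field k]

/-- The coverings `s = λ tⁿ`. -/
theorem poly_pow {a b : k[X]} (hB : Full2 a b) (hs : (a * b * (a - b)).Splits) {n : ℕ}
    (h2 : ¬ 2 ∣ n) (hk : (n : k) ≠ 0) {lam : k} (hl : lam ≠ 0)
    (hc : ∀ ξ, (a * b * (a - b)).IsRoot ξ → ξ = 0 ∨
      ∀ ℓ : ℕ, ℓ.Prime → ℓ ∣ n → ∀ y : k, y ^ ℓ ≠ ξ / lam) :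
    PolyCover (C lam * X ^ n) a b := by
  have h0 := hB.sep.ne_zero
  have hn0 : n ≠ 0 := by
    rintro rfl
    exact hk Nat.cast_zero
  have hodd : Odd n := by
    rw [← Nat.not_even_iff_odd, even_iff_two_dvd]
    exact h2
  have hdeg : (C lam * X ^ n : k[X]).natDegree = n := natDegree_C_mul_X_pow n lam hl
  refine ⟨by rw [hdeg]; exact h2, fun π hπ hd => ?_⟩
  obtain ⟨ξ, hξ⟩ := exists_root_of_degree_eq_one
    ((hs.of_dvd h0 hd).degree_eq_one_of_irreducible hπ)
  obtain ⟨x, hx⟩ := (irreducible_X_sub_C ξ).associated_of_dvd hπ (dvd_iff_isRoot.2 hξ)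
  obtain ⟨u, hu, hux⟩ := Polynomial.isUnit_iff.1 x.isUnit
  have e : π = C u * (X - C ξ) := by rw [← hx, ← hux, mul_comm]
  have e1 : π.natDegree = 1 := by rw [e, natDegree_C_mul hu.ne_zero, natDegree_X_sub_C]
  have hroot : (a * b * (a - b)).IsRoot ξ := hξ.dvd hd
  have epb : π.comp (C lam * X ^ n) = C (u * lam) * (X ^ n - C (ξ / lam)) := by
    rw [e, mul_comp, C_comp, sub_comp, X_comp, C_comp, C_mul]
    have e3 : (C lam : k[X]) * C (ξ / lam) = C ξ := by rw [← C_mul, mul_div_cancel₀ _ hl]
    linear_combination (C u) * e3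
  by_cases h : ξ = 0
  · refine ⟨X, n, 1, u * lam, mul_ne_zero hu.ne_zero hl, irreducible_X, separable_X, ?_, ?_, ?_⟩
    · rw [mul_one, hdeg]
    · rw [natDegree_X, e1]
    · rw [epb, h, zero_div, C_0, sub_zero]
  · have hne : ξ / lam ≠ 0 := div_ne_zero h hl
    replace h := (hc ξ hroot).resolve_left h
    refine ⟨X ^ n - C (ξ / lam), 1, n, u * lam, mul_ne_zero hu.ne_zero hl,
      X_pow_sub_C_irreducible_of_odd hodd fun p hp hpn y => h p hp hpn y,
      separable_X_pow_sub_C _ hk hne, ?_, ?_, ?_⟩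
    · rw [one_mul, hdeg]
    · rw [natDegree_X_pow_sub_C, e1, mul_one]
    · rw [epb, pow_one]

/-- The existence of `λ` over finite fields. -/
theorem exists_lam [Finite k] (S : Finset k) (h0 : (0 : k) ∉ S) {ℓ : ℕ} (hd : ℓ ∣ Nat.card k - 1)
    (hS : S.card < ℓ) : ∃ lam : k, lam ≠ 0 ∧ ∀ ξ ∈ S, ∀ y : k, y ^ ℓ ≠ ξ / lam := by
  letI := Fintype.ofFinite k
  have hcard : Nat.card k = Fintype.card k := Nat.card_eq_fintype_card
  obtain ⟨m, hm⟩ := hd
  have h1c : 1 < Fintype.card k := Fintype.one_lt_card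
  have hm0 : 0 < m := by
    rcases Nat.eq_zero_or_pos m with h | h
    · rw [h, mul_zero, hcard] at hm
      omega
    · exact h
  obtain ⟨g, hg⟩ : ∃ g : k[X], g = X * ∏ ξ ∈ S, (X ^ m - C (ξ ^ m)) := ⟨_, rfl⟩
  have hprod : ∏ ξ ∈ S, (X ^ m - C (ξ ^ m) : k[X]) ≠ 0 :=
    Finset.prod_ne_zero_iff.2 fun ξ _ => X_pow_sub_C_ne_zero hm0 _
  have hg0 : g ≠ 0 := by
    rw [hg]
    exact mul_ne_zero X_ne_zero hprod
  have hgd : g.natDegree < Fintype.card k := by
    rw [hg, natDegree_mul X_ne_zero hprod, natDegree_X,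
      natDegree_prod _ _ fun ξ _ => X_pow_sub_C_ne_zero hm0 _]
    have h3 : ∑ ξ ∈ S, (X ^ m - C (ξ ^ m) : k[X]).natDegree = S.card * m := by
      rw [Finset.sum_congr rfl fun ξ _ => natDegree_X_pow_sub_C, Finset.sum_const, smul_eq_mul]
    rw [h3]
    have h4 : S.card * m < ℓ * m := (Nat.mul_lt_mul_right hm0).2 hS
    rw [← hm, hcard] at h4
    omega
  obtain ⟨lam, hlam⟩ : ∃ lam : k, g.eval lam ≠ 0 := by
    by_contra h
    push Not at h
    have h5 : (Finset.univ : Finset k) ⊆ g.roots.toFinset := by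
      intro x _
      rw [Multiset.mem_toFinset, mem_roots hg0]
      exact h x
    have h6 := (Finset.card_le_card h5).trans ((Multiset.toFinset_card_le _).trans (card_roots' g))
    rw [Finset.card_univ] at h6
    omega
  rw [hg, eval_mul, eval_X, eval_prod] at hlam
  have hl0 : lam ≠ 0 := left_ne_zero_of_mul hlam
  refine ⟨lam, hl0, fun ξ hξ y hy => ?_⟩
  have h7 := Finset.prod_ne_zero_iff.1 (right_ne_zero_of_mul hlam) ξ hξ
  apply h7
  have hξ0 : ξ ≠ 0 := fun h => h0 (h ▸ hξ)
  have hy0 : y ≠ 0 := by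
    rintro rfl
    rw [zero_pow (by omega)] at hy
    exact div_ne_zero hξ0 hl0 hy.symm
  have h8 : (ξ / lam) ^ m = 1 := by
    rw [← hy, ← pow_mul, ← hm, hcard, FiniteField.pow_card_sub_one_eq_one y hy0]
  rw [div_pow, div_eq_one_iff_eq (pow_ne_zero m hl0)] at h8
  rw [eval_sub, eval_pow, eval_X, eval_C, h8, sub_self]

end tower

end Pool.Agent.N181.TD
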