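import Pool.Agent.TH115.GD.Rk2
import Pool.Agent.TH115.GD.MaxRk

/-!
The rank two criterion for forms which are constants times odd powers of separable irreducible
polynomials, with generators.
-/

set_option autoImplicit false
set_option linter.all false

open Polynomial IsDedekindDomain WeierstrassCurve WeierstrassCurve.Affine
open scoped Classical

namespace Pool.Agent.N181.TD

open Pool.Agent.TH115.GD

/-- `f` has degree `n` and is a constant times an odd power of a separable irreducible polynomial. -/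
def PowForm {k : Type} [Field k] (f : k[X]) (n : ℕ) : Prop :=
  ∃ (c : k) (π : k[X]) (e : ℕ), c ≠ 0 ∧ Irreducible π ∧ π.Separable ∧ Odd e ∧
    f = C c * π ^ e ∧ f.natDegree = n

section pow

variable {k : Type} [Field k]

theorem PowForm.ne {f : k[X]} {n : ℕ} (h : PowForm f n) : f ≠ 0 := by
  obtain ⟨c, π, e, hc, hπ, -, -, rfl, -⟩ := h
  exact mul_ne_zero (C_ne_zero.2 hc) (pow_ne_zero _ hπ.ne_zero)

/-- Squarefree divisors of the product of two odd powers. -/
theorem dvd_pow2 {A p q : k[X]} (hA : Squarefree A) (hp : Irreducible p) (hq : Irreducible q)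
    {u c d : k} (hu : u ≠ 0) (hc : c ≠ 0) (hd : d ≠ 0) {i j : ℕ}
    (h : A ∣ C u * ((C c * p ^ i) * (C d * q ^ j))) :
    ∃ (c : k) (x y : Fin 2), c ≠ 0 ∧ A = C c * (p ^ (x : ℕ) * q ^ (y : ℕ)) := by
  have h1 : A ∣ (p * q) ^ (i + j + 1) := by
    have e : C u * ((C c * p ^ i) * (C d * q ^ j)) = C (u * c * d) * (p ^ i * q ^ j) := by
      rw [C_mul, C_mul]; ring
    rw [e] at h
    refine (dvd_unit_mul (mul_ne_zero (mul_ne_zero hu hc) hd) h).trans ?_
    rw [mul_pow]
    exact mul_dvd_mul (pow_dvd_pow _ (by omega)) (pow_dvd_pow _ (by omega))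
  have h3 : A ∣ p * q := (hA.dvd_pow_iff_dvd (by omega)).1 h1
  exact dvd_irr2 hp hq one_ne_zero (by rw [C_1, one_mul]; exact h3)

theorem odd_factor_pow {p q : k[X]} (hp : Irreducible p) (hodd : Odd p.natDegree) {e : ℕ}
    (he : Odd e) {c : k} (hc : c ≠ 0) (hco : IsCoprime (C c * p ^ e) q) :
    HasOddFactor (C c * p ^ e * q) := by
  obtain ⟨m, rfl⟩ := he
  refine ⟨p, m, hp, hodd, ⟨C c * q, by ring⟩, ?_⟩
  rintro ⟨w, hw⟩
  have hcp : IsCoprime p q := by
    have h1 : IsCoprime (p ^ (2 * m + 1)) q := hco.of_mul_left_right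
    exact (IsCoprime.pow_left_iff (by omega)).1 h1
  have h1 : C c * q = p * w := by
    apply mul_left_cancel₀ (pow_ne_zero (2 * m + 1) hp.ne_zero)
    rw [show p ^ (2 * m + 1) * (C c * q) = C c * p ^ (2 * m + 1) * q by ring, hw]
    ring
  have h3 : IsUnit p := hcp.isUnit_of_dvd' dvd_rfl (dvd_unit_mul hc ⟨w, h1⟩)
  exact hp.not_isUnit h3

end pow

section sq

variable {k k' K F : Type} [Field k] [Field k'] [Algebra k k'] [Field K] [Algebra k[X] K]
    [Field F] [Algebra k'[X] F] [IsFractionRing k'[X] F] [Algebra K F]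

theorem emb_odd (hT : IsTower k k' K F) (h2 : (2 : k) ≠ 0) {c : k} (hc : c ≠ 0) {π : k[X]}
    (hπ : π ≠ 0) {e : ℕ} (he : Odd e) :
    SqEq (emb k K F (C c * π ^ e)) (emb k K F π) := by
  refine (emb_C_mul hT h2 hc _).trans ?_
  rw [map_pow]
  have := sqEq_pow (emb_ne (K := K) (F := F) hT hπ) (m := e) (n := 1) (by
    rw [Nat.odd_iff.1 he])
  rwa [pow_one] at this

/-- `P` is the point with the coordinates `x`, `y`. -/
def IsPt (a b : k[X]) (P : Pt (crv (algebraMap k[X] K a) (algebraMap k[X] K b)) K) (x y : k[X]) :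
    Prop :=
  ∃ hn : ((crv (algebraMap k[X] K a) (algebraMap k[X] K b)).baseChange K).toAffine.Nonsingular
    (algebraMap k[X] K x) (algebraMap k[X] K y), P = Point.some _ _ hn

/-- A point with polynomial coordinates. -/
theorem isPt_exists (hT : IsTower k k' K F) (h2 : (2 : k) ≠ 0) {a b : k[X]} (ha : a ≠ 0)
    (hb : b ≠ 0) (hab : a ≠ b) {x y : k[X]} (hxy : y ^ 2 = x * (x - a) * (x - b)) :
    ∃ P : Pt (crv (algebraMap k[X] K a) (algebraMap k[X] K b)) K, IsPt a b P x y := by
  haveI := hT.fracK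
  have h2K : (2 : K) ≠ 0 := tt h2
  have inj := IsFractionRing.injective k[X] K
  have haK : algebraMap k[X] K a ≠ 0 := by simpa using ha
  have hbK : algebraMap k[X] K b ≠ 0 := by simpa using hb
  have habK : algebraMap k[X] K a ≠ algebraMap k[X] K b := fun h => hab (inj h)
  have hE := isE (algebraMap k[X] K a) (algebraMap k[X] K b) K h2K haK hbK habK
  have hn : ((crv (algebraMap k[X] K a) (algebraMap k[X] K b)).baseChange K).toAffine.Nonsingular
      (algebraMap k[X] K x) (algebraMap k[X] K y) := by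
    rw [hE.nonsingular]
    have := congrArg (algebraMap k[X] K) hxy
    rw [map_pow, map_mul, map_mul, map_sub, map_sub] at this
    exact this
  exact ⟨_, hn, rfl⟩

/-- A point with polynomial coordinates. -/
theorem isPt_rep (hT : IsTower k k' K F) {a b : k[X]} {x y p q : k[X]}
    {P : Pt (crv (algebraMap k[X] K a) (algebraMap k[X] K b)) K} (hP : IsPt a b P x y)
    (hp : SqEq (emb k K F p) (emb k K F (if x = 0 then a * b else x)))
    (hq : SqEq (emb k K F q) (emb k K F (if x = a then a * (a - b) else x - a))) :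
    RepP a b F P p q := by
  haveI := hT.fracK
  obtain ⟨hn, rfl⟩ := hP
  have inj := IsFractionRing.injective k[X] K
  have i0 : algebraMap k[X] K x = 0 ↔ x = 0 := by
    rw [← map_zero (algebraMap k[X] K)]
    exact inj.eq_iff
  have i1 : algebraMap k[X] K x = algebraMap k[X] K a ↔ x = a := inj.eq_iff
  refine ⟨?_, ?_⟩
  · have e : d0 (algebraMap k[X] K a) (algebraMap k[X] K b) (Point.some _ _ hn) =
        algebraMap k[X] K (if x = 0 then a * b else x) := by
      simp only [d0, i0]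
      split_ifs
      · rw [map_mul]
      · rfl
    rw [e]
    exact hp
  · have e : d1 (algebraMap k[X] K a) (algebraMap k[X] K b) (Point.some _ _ hn) =
        algebraMap k[X] K (if x = a then a * (a - b) else x - a) := by
      simp only [d1, i1]
      split_ifs
      · rw [map_mul, map_sub]
      · rw [map_sub]
    rw [e]
    exact hq

/-- All the triples are represented by combinations of the points `(x j, y j)`. -/
def Generates (K F : Type) [Field K] [Algebra k[X] K] [Field F] [Algebra K F] (a b : k[X]) {r : ℕ}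
    (x y : Fin r → k[X]) : Prop :=
  ∀ G : Fin r → Pt (crv (algebraMap k[X] K a) (algebraMap k[X] K b)) K,
    (∀ j, IsPt a b (G j) (x j) (y j)) →
    ∀ A B D : k[X], A.Monic → B.Monic → D.Monic → Squarefree A → Squarefree B → Squarefree D →
      A ∣ a → B ∣ b → D ∣ a - b → InfCond a b A B D →
      ∃ e : Fin r → Fin 2,
        Represents K F (A * B) (d0 (algebraMap k[X] K a) (algebraMap k[X] K b)
          (∑ j, (e j : ℕ) • G j)) ∧
        Represents K F (A * D) (d1 (algebraMap k[X] K a) (algebraMap k[X] K b)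
          (∑ j, (e j : ℕ) • G j))

theorem Generates.enough (hT : IsTower k k' K F) (h2 : (2 : k) ≠ 0) {a b : k[X]} (ha : a ≠ 0)
    (hb : b ≠ 0) (hab : a ≠ b) {r : ℕ} {x y : Fin r → k[X]}
    (hxy : ∀ j, y j ^ 2 = x j * (x j - a) * (x j - b)) (h : Generates K F a b x y) :
    EnoughPoints K F a b := by
  intro A B D hA hB hD sA sB sD dA dB dD hinf
  choose G hG using fun j => isPt_exists (K := K) hT h2 ha hb hab (hxy j)
  obtain ⟨e, h1, h3⟩ := h G hG A B D hA hB hD sA sB sD dA dB dD hinf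
  exact ⟨_, h1, h3⟩

theorem triple' (hT : IsTower k k' K F) (h2 : (2 : k) ≠ 0) {a b : k[X]}
    (ha : a ≠ 0) (hb : b ≠ 0) (hab : a ≠ b) {m r : ℕ} {p : Fin m → k[X]}
    (hp : ∀ i, p i ≠ 0)
    {G : Fin r → Pt (crv (algebraMap k[X] K a) (algebraMap k[X] K b)) K}
    {M0 M1 : Fin r → Fin m → ℕ}
    (hG : ∀ j, RepP a b F (G j) (∏ i, p i ^ M0 j i) (∏ i, p i ^ M1 j i))
    {A B D : k[X]} {c1 c2 c3 : k} (h1 : c1 ≠ 0) (h2' : c2 ≠ 0) (h3 : c3 ≠ 0) {x y z : Fin m → ℕ}
    (hA : A = C c1 * ∏ i, p i ^ x i) (hB : B = C c2 * ∏ i, p i ^ y i)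
    (hD : D = C c3 * ∏ i, p i ^ z i)
    (he : ∃ e : Fin r → Fin 2, (∀ i, (x i + y i) % 2 = (∑ j, (e j : ℕ) * M0 j i) % 2) ∧
      ∀ i, (x i + z i) % 2 = (∑ j, (e j : ℕ) * M1 j i) % 2) :
    ∃ e : Fin r → Fin 2,
      Represents K F (A * B) (d0 (algebraMap k[X] K a) (algebraMap k[X] K b)
        (∑ j, (e j : ℕ) • G j)) ∧
      Represents K F (A * D) (d1 (algebraMap k[X] K a) (algebraMap k[X] K b)
        (∑ j, (e j : ℕ) • G j)) := by
  obtain ⟨e, e0, e1⟩ := he
  have key := RepP.gen hT h2 ha hb hab hp hG (fun j => (e j : ℕ)) e0 e1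
  refine ⟨e, SqEq.trans ?_ key.1, SqEq.trans ?_ key.2⟩
  · have h : A * B = C (c1 * c2) * ∏ i, p i ^ (x i + y i) := by
      rw [hA, hB, C_mul]
      simp_rw [pow_add]
      rw [Finset.prod_mul_distrib]
      ring
    rw [h]
    exact emb_C_mul hT h2 (mul_ne_zero h1 h2') _
  · have h : A * D = C (c1 * c3) * ∏ i, p i ^ (x i + z i) := by
      rw [hA, hD, C_mul]
      simp_rw [pow_add]
      rw [Finset.prod_mul_distrib]
      ring
    rw [h]
    exact emb_C_mul hT h2 (mul_ne_zero h1 h3) _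

end sq

end Pool.Agent.N181.TD
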