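import Pool.Agent.N181.TD.Rk
import Pool.Agent.N181.TC.Cover
import Pool.Agent.N181.P9.Over

/-!
Pullbacks of the rational elliptic surfaces with full level two with one place above each bad place.
-/

set_option autoImplicit false
set_option linter.all false

open Polynomial IsDedekindDomain WeierstrassCurve WeierstrassCurve.Affine
open scoped Classical

namespace Pool.Agent.N181.TD

open Pool.Agent.N181.P3 (hb hb_map hb_sum)
open Pool.Agent.N181.P8 (sep_map exists_lift finite_mid TateQ tate_desc)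
open Pool.Agent.N181.P9 (tateAt_two)
open Pool.Agent.N181.TC (Full2 NF H H_sub_sq lin_eq map_P)
open Pool.Agent.TH115.GD

section hom

variable {M : Type} [Field M]

/-- The conditions on the forms over the ground field. -/
def FibR (Q R : M[X]) (n : ℕ) (a b : M[X]) : Prop :=
  (∀ ξ, (a * b * (a - b)).IsRoot ξ → PowForm (Q - C ξ * R) n) ∧
  ((a * b * (a - b)).natDegree ≤ 5 → R = 1 ∨ PowForm R n)

theorem unit_formR {f : M[X]} {c : M} (hc : c ≠ 0) {n : ℕ} (h : PowForm f n) :
    PowForm (C c * f) n := by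
  obtain ⟨u, π, e, hu, hπ, hs, he, hf, hd⟩ := h
  exact ⟨c * u, π, e, mul_ne_zero hc hu, hπ, hs, he, by rw [hf, C_mul, mul_assoc], by
    rw [natDegree_C_mul hc]; exact hd⟩

/-- The form of a factor. -/
theorem form_ofR {Q R : M[X]} {n : ℕ} {a b : M[X]} (hP : (a * b * (a - b)).Separable)
    (hf : FibR Q R n a b) {u w : M[X]} (hu : u.natDegree ≤ 1) (hw : w.natDegree ≤ 5)
    (e : a * b * (a - b) = u * w) :
    PowForm (H Q R u) n ∨ ((∃ c : M, c ≠ 0 ∧ H Q R u = C c) ∧ u.coeff 1 = 0) := by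
  have hu0 : u ≠ 0 := by
    rintro rfl
    rw [zero_mul] at e
    exact hP.ne_zero e
  by_cases h1 : u.coeff 1 = 0
  · have h0 : u.coeff 0 ≠ 0 := by
      intro h0
      apply hu0
      rw [lin_eq hu, h1, h0]
      simp
    have hd : u.natDegree = 0 := by
      rw [lin_eq hu, h1, C_0, zero_mul, zero_add, natDegree_C]
    have h5 : (a * b * (a - b)).natDegree ≤ 5 := by
      rw [e]
      have := natDegree_mul_le (p := u) (q := w)
      omega
    have e1 : H Q R u = C (u.coeff 0) * R := by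
      unfold H
      rw [h1, C_0, zero_mul, zero_add]
    rcases hf.2 h5 with hR | hR
    · right
      exact ⟨⟨u.coeff 0, h0, by rw [e1, hR, mul_one]⟩, h1⟩
    · left
      rw [e1]
      exact unit_formR h0 hR
  · left
    obtain ⟨ξ, hξ⟩ : ∃ ξ, ξ = -(u.coeff 0 / u.coeff 1) := ⟨_, rfl⟩
    have hroot : (a * b * (a - b)).IsRoot ξ := by
      rw [e, IsRoot.def, eval_mul]
      have : u.eval ξ = 0 := by
        rw [lin_eq hu, hξ]
        simp only [eval_add, eval_mul, eval_C, eval_X]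
        field_simp
        ring
      rw [this, zero_mul]
    have e1 : H Q R u = C (u.coeff 1) * (Q - C ξ * R) := by
      unfold H
      rw [hξ, C_neg]
      have e2 : (C (u.coeff 1) * C (u.coeff 0 / u.coeff 1) : M[X]) = C (u.coeff 0) := by
        rw [← C_mul, mul_div_cancel₀ _ h1]
      linear_combination (-R) * e2
    rw [e1]
    exact unit_formR h1 (hf.1 ξ hroot)

end hom

section tate

variable {M L' K F : Type} [Field M] [Field L'] [Algebra M L'] [Field K] [Algebra M[X] K]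
  [Field F] [Algebra L'[X] F] [IsFractionRing L'[X] F] [Algebra K F]

/-- The data of the pullback in normal form. -/
theorem gens_nf (hT : IsTower M L' K F) {a b : M[X]} (hF : Full2 a b) {α β μ : M} {p q r : M[X]}
    (h : NF a b α β p q r) (hμ : μ ^ 2 = ((α + β) ^ 2 - 1) * ((α - β) ^ 2 - 1)) {Q R : M[X]}
    {n : ℕ} (hn : ¬ 2 ∣ n) (hco : IsCoprime Q R) (hf : FibR Q R n a b) :
    hb Q R 2 a ≠ 0 ∧ hb Q R 2 b ≠ 0 ∧ hb Q R 2 a ≠ hb Q R 2 b ∧
    IsCoprime (hb Q R 2 a) (hb Q R 2 b) ∧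
    (∀ π : M[X], Irreducible π → π ∣ hb Q R 2 a * hb Q R 2 b * (hb Q R 2 a - hb Q R 2 b) →
      π.Separable) ∧
    TwoOddFactors (hb Q R 2 a) (hb Q R 2 b) ∧
    (∀ j, gy α β μ (H Q R p) (H Q R q) (H Q R r) j ^ 2 =
      gx α β (H Q R p) (H Q R q) (H Q R r) j *
        (gx α β (H Q R p) (H Q R q) (H Q R r) j - hb Q R 2 a) *
        (gx α β (H Q R p) (H Q R q) (H Q R r) j - hb Q R 2 b)) ∧
    Generates K F (hb Q R 2 a) (hb Q R 2 b) (gx α β (H Q R p) (H Q R q) (H Q R r))
      (gy α β μ (H Q R p) (H Q R q) (H Q R r)) := by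
  have hμ0 : μ ≠ 0 := by
    rintro rfl
    rw [zero_pow two_ne_zero] at hμ
    exact (mul_ne_zero h.h1 h.h2) hμ.symm
  have ea := h.ea
  have eb := h.eb
  have hHa : hb Q R 2 a = H Q R p ^ 2 - H Q R q ^ 2 := by rw [ea, H_sub_sq h.dp h.dq]
  have hHb : hb Q R 2 b = H Q R p ^ 2 - H Q R r ^ 2 := by rw [eb, H_sub_sq h.dp h.dr]
  rw [hHa, hHb]
  have hlin : H Q R p = C α * H Q R q + C β * H Q R r := by
    have e1 := congrArg (fun f => coeff f 1) h.ep
    have e0 := congrArg (fun f => coeff f 0) h.ep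
    simp only [coeff_add, coeff_C_mul] at e1 e0
    unfold H
    rw [e1, e0]
    simp only [C_add, C_mul]
    ring
  have hqr : IsCoprime (H Q R q) (H Q R r) := by
    obtain ⟨x, y, hxy⟩ := hco
    obtain ⟨δ, hδ⟩ : ∃ δ : M, δ = q.coeff 1 * r.coeff 0 - q.coeff 0 * r.coeff 1 := ⟨_, rfl⟩
    have hδ0 : δ ≠ 0 := by rw [hδ]; exact h.det
    have hδ' : (C δ⁻¹ : M[X]) * (C (q.coeff 1) * C (r.coeff 0) - C (q.coeff 0) * C (r.coeff 1)) =
        1 := by
      rw [← C_mul, ← C_mul, ← C_sub, ← C_mul, ← hδ, inv_mul_cancel₀ hδ0, C_1]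
    refine ⟨C δ⁻¹ * (C (r.coeff 0) * x - C (r.coeff 1) * y),
      C δ⁻¹ * (C (q.coeff 1) * y - C (q.coeff 0) * x), ?_⟩
    unfold H
    linear_combination (C δ⁻¹ * (C (q.coeff 1) * C (r.coeff 0) - C (q.coeff 0) * C (r.coeff 1))) *
      hxy + hδ'
  have eP : a * b * (a - b) = (p + q) * (p - q) * ((p + r) * (p - r)) * ((r + q) * (r - q)) := by
    rw [ea, eb]; ring
  have dp := h.dp
  have dq := h.dq
  have dr := h.dr
  have ds : ∀ {u v : M[X]}, u.natDegree ≤ 1 → v.natDegree ≤ 1 → (u + v).natDegree ≤ 1 :=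
    fun hu hv => (natDegree_add_le _ _).trans (max_le hu hv)
  have dd : ∀ {u v : M[X]}, u.natDegree ≤ 1 → v.natDegree ≤ 1 → (u - v).natDegree ≤ 1 :=
    fun hu hv => (natDegree_sub_le _ _).trans (max_le hu hv)
  have hadd : ∀ u v : M[X], H Q R (u + v) = H Q R u + H Q R v := by
    intro u v
    unfold H
    simp only [coeff_add, C_add]
    ring
  have hsub : ∀ u v : M[X], H Q R (u - v) = H Q R u - H Q R v := by
    intro u v
    unfold H
    simp only [coeff_sub, C_sub]
    ring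
  have d5 : ∀ {u1 u2 u3 u4 u5 : M[X]}, u1.natDegree ≤ 1 → u2.natDegree ≤ 1 → u3.natDegree ≤ 1 →
      u4.natDegree ≤ 1 → u5.natDegree ≤ 1 → (u1 * (u2 * u3) * (u4 * u5)).natDegree ≤ 5 := by
    intro u1 u2 u3 u4 u5 g1 g2 g3 g4 g5
    have k1 := natDegree_mul_le (p := u2) (q := u3)
    have k2 := natDegree_mul_le (p := u4) (q := u5)
    have k3 := natDegree_mul_le (p := u1) (q := u2 * u3)
    have k4 := natDegree_mul_le (p := u1 * (u2 * u3)) (q := u4 * u5)
    omega
  have hn' : Odd n := Nat.not_even_iff_odd.1 (by rw [even_iff_two_dvd]; exact hn)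
  -- the six forms
  have F1 := form_ofR hF.sep hf (ds dp dq)
      (d5 (dd dp dq) (ds dp dr) (dd dp dr) (ds dr dq) (dd dr dq)) (by rw [eP]; ring)
  have F2 := form_ofR hF.sep hf (dd dp dq)
      (d5 (ds dp dq) (ds dp dr) (dd dp dr) (ds dr dq) (dd dr dq)) (by rw [eP]; ring)
  have F3 := form_ofR hF.sep hf (ds dp dr)
      (d5 (dd dp dr) (ds dp dq) (dd dp dq) (ds dr dq) (dd dr dq)) (by rw [eP]; ring)
  have F4 := form_ofR hF.sep hf (dd dp dr)
      (d5 (ds dp dr) (ds dp dq) (dd dp dq) (ds dr dq) (dd dr dq)) (by rw [eP]; ring)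
  have F5 := form_ofR hF.sep hf (ds dq dr)
      (d5 (dd dr dq) (ds dp dq) (dd dp dq) (ds dp dr) (dd dp dr)) (by rw [eP]; ring)
  have F6 := form_ofR hF.sep hf (dd dq dr) (w := C (-1) * ((r + q) * ((p + q) * (p - q)) *
      ((p + r) * (p - r)))) ((natDegree_C_mul_le _ _).trans
        (d5 (ds dr dq) (ds dp dq) (dd dp dq) (ds dp dr) (dd dp dr)))
      (by rw [eP, C_neg, C_1]; ring)
  have F : ∀ i : Fin 6, PowForm (H Q R (![p + q, p - q, p + r, p - r, q + r, q - r] i)) n ∨
      ((∃ c : M, c ≠ 0 ∧ H Q R (![p + q, p - q, p + r, p - r, q + r, q - r] i) = C c) ∧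
      (![p + q, p - q, p + r, p - r, q + r, q - r] i).coeff 1 = 0) := by
    intro i
    fin_cases i
    · exact F1
    · exact F2
    · exact F3
    · exact F4
    · exact F5
    · exact F6
  have dU : ∀ i : Fin 6, (![p + q, p - q, p + r, p - r, q + r, q - r] i).natDegree ≤ 1 := by
    intro i
    fin_cases i
    · exact ds dp dq
    · exact dd dp dq
    · exact ds dp dr
    · exact dd dp dr
    · exact ds dq dr
    · exact dd dq dr
  have hU : ∀ i : Fin 6, H Q R (![p + q, p - q, p + r, p - r, q + r, q - r] i) =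
      ![H Q R p + H Q R q, H Q R p - H Q R q, H Q R p + H Q R r, H Q R p - H Q R r,
        H Q R q + H Q R r, H Q R q - H Q R r] i := by
    intro i
    fin_cases i
    · exact hadd _ _
    · exact hsub _ _
    · exact hadd _ _
    · exact hsub _ _
    · exact hadd _ _
    · exact hsub _ _
  refine gens2 hT hF.two h.hα h.hβ hμ0 hμ.symm hlin hqr (n := n) hn' ?_ ?_
  · intro f hff
    simp only [Set.mem_insert_iff, Set.mem_singleton_iff] at hff
    rcases hff with rfl | rfl | rfl | rfl | rfl | rfl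
    · rw [← hadd]; exact F1.imp id fun h => h.1
    · rw [← hsub]; exact F2.imp id fun h => h.1
    · rw [← hadd]; exact F3.imp id fun h => h.1
    · rw [← hsub]; exact F4.imp id fun h => h.1
    · rw [← hadd]; exact F5.imp id fun h => h.1
    · rw [← hsub]; exact F6.imp id fun h => h.1
  · intro i j hij
    rw [← hU i, ← hU j]
    rcases F i with h1 | ⟨-, h1⟩
    · obtain ⟨u, π, e, -, -, -, -, -, hd⟩ := h1
      exact Or.inl hd
    rcases F j with h2 | ⟨-, h2⟩
    · obtain ⟨u, π, e, -, -, -, -, -, hd⟩ := h2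
      exact Or.inr hd
    exfalso
    have z : ∀ l : Fin 6, (![p + q, p - q, p + r, p - r, q + r, q - r] l).coeff 1 = 0 →
        (![p + q, p - q, p + r, p - r, q + r, q - r] l).natDegree = 0 := by
      intro l hl
      rw [lin_eq (dU l), hl, C_0, zero_mul, zero_add, natDegree_C]
    have eP' : a * b * (a - b) =
        C (-1) * ∏ l : Fin 6, (![p + q, p - q, p + r, p - r, q + r, q - r] : Fin 6 → M[X]) l := by
      rw [Fin.prod_univ_six, eP, C_neg, C_1]
      simp
      ring
    have h5 := hF.deg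
    rw [eP'] at h5
    have h6 := (natDegree_C_mul_le (-1 : M) (∏ l : Fin 6,
      (![p + q, p - q, p + r, p - r, q + r, q - r] : Fin 6 → M[X]) l))
    have h7 := natDegree_prod_le Finset.univ
      (fun l : Fin 6 => (![p + q, p - q, p + r, p - r, q + r, q - r] : Fin 6 → M[X]) l)
    have h8 : ∑ l : Fin 6, ((![p + q, p - q, p + r, p - r, q + r, q - r] : Fin 6 → M[X]) l).natDegree
        ≤ ∑ l : Fin 6, (if l = i ∨ l = j then 0 else 1) := by
      apply Finset.sum_le_sum
      intro l _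
      by_cases hl : l = i ∨ l = j
      · rw [if_pos hl]
        rcases hl with rfl | rfl
        · exact (z _ h1).le
        · exact (z _ h2).le
      · rw [if_neg hl]
        exact dU l
    have h9 : ∀ i j : Fin 6, i ≠ j → ∑ l : Fin 6, (if l = i ∨ l = j then 0 else 1) = 4 := by
      decide
    have h10 := h9 i j hij
    have h11 : (∏ l : Fin 6, (![p + q, p - q, p + r, p - r, q + r, q - r] : Fin 6 → M[X]) l).natDegree
        ≤ ∑ l : Fin 6, ((![p + q, p - q, p + r, p - r, q + r, q - r] : Fin 6 → M[X]) l).natDegree :=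
      h7
    omega

theorem tate_nfR (hT : IsTower M L' K F) {a b : M[X]} (hF : Full2 a b) {α β μ : M} {p q r : M[X]}
    (h : NF a b α β p q r) (hμ : μ ^ 2 = ((α + β) ^ 2 - 1) * ((α - β) ^ 2 - 1)) {Q R : M[X]}
    {n : ℕ} (hn : ¬ 2 ∣ n) (hco : IsCoprime Q R) (hf : FibR Q R n a b) :
    TateAtTwo (F := F) L' (crv (algebraMap M[X] K (hb Q R 2 a)) (algebraMap M[X] K (hb Q R 2 b))) := by
  obtain ⟨h1, h2, h3, h4, h5, h6, h7, h8⟩ := gens_nf (F := F) (K := K) hT hF h hμ hn hco hf
  exact criterion hT hF.two h1 h2 h3 h4 h5 (Or.inr h6) (h8.enough hT hF.two h1 h2 h3 h7)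

end tate

end Pool.Agent.N181.TD
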