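import Pool.Agent.N181.TD.Pow

/-!
The rank two criterion for forms which are constants times odd powers of separable irreducible
polynomials, with generators.
-/

set_option autoImplicit false
set_option linter.all false

open Polynomial IsDedekindDomain WeierstrassCurve WeierstrassCurve.Affine
open scoped Classical

namespace Pool.Agent.N181.TD

open Pool.Agent.TH115.GD

/-- `f` is of the form `u π ^ e` with `π` a separable irreducible polynomial and `f` of degree `n`, or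
`π = 1`. -/
def Dat {k : Type} [Field k] (f : k[X]) (n : ℕ) (u : k) (π : k[X]) (e : ℕ) : Prop :=
  u ≠ 0 ∧ Odd e ∧ f = C u * π ^ e ∧
    ((Irreducible π ∧ π.Separable ∧ Odd π.natDegree ∧ f.natDegree = n) ∨ (π = 1 ∧ f.natDegree = 0))

theorem Dat.ne {k : Type} [Field k] {f : k[X]} {n : ℕ} {u : k} {π : k[X]} {e : ℕ}
    (h : Dat f n u π e) : π ≠ 0 := by
  rcases h.2.2.2 with h | h
  · exact h.1.ne_zero
  · rw [h.1]; exact one_ne_zero

theorem Dat.fne {k : Type} [Field k] {f : k[X]} {n : ℕ} {u : k} {π : k[X]} {e : ℕ}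
    (h : Dat f n u π e) : f ≠ 0 := by
  rw [h.2.2.1]
  exact mul_ne_zero (C_ne_zero.2 h.1) (pow_ne_zero _ h.ne)

theorem Dat.sep {k : Type} [Field k] {f : k[X]} {n : ℕ} {u : k} {π : k[X]} {e : ℕ}
    (h : Dat f n u π e) {ρ : k[X]} (hρ : Irreducible ρ) (hd : ρ ∣ f) : ρ.Separable := by
  rw [h.2.2.1] at hd
  have h1 := hρ.prime.dvd_of_dvd_pow (dvd_unit_mul h.1 hd)
  rcases h.2.2.2 with h | h
  · exact h.2.1.of_dvd h1
  · rw [h.1] at h1
    exact absurd (isUnit_of_dvd_one h1) hρ.not_isUnit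

theorem Dat.odd {k : Type} [Field k] {f g : k[X]} {n : ℕ} {u : k} {π : k[X]} {e : ℕ}
    (h : Dat f n u π e) (hn : 0 < n) (hf : f.natDegree = n) (hco : IsCoprime f g) :
    HasOddFactor (f * g) := by
  obtain ⟨h1, h2, h3, h4⟩ := h
  rcases h4 with h | h
  · rw [h3]
    exact odd_factor_pow h.1 h.2.2.1 h2 h1 (by rw [← h3]; exact hco)
  · omega

theorem exists_dat {k : Type} [Field k] {f : k[X]} {n : ℕ} (hn : Odd n)
    (h : PowForm f n ∨ ∃ c : k, c ≠ 0 ∧ f = C c) : ∃ (u : k) (π : k[X]) (e : ℕ), Dat f n u π e := by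
  rcases h with ⟨c, π, e, hc, hπ, hs, he, hf, hd⟩ | ⟨c, hc, hf⟩
  · refine ⟨c, π, e, hc, he, hf, Or.inl ⟨hπ, hs, ?_, hd⟩⟩
    rw [hf, natDegree_C_mul hc, natDegree_pow] at hd
    rw [← hd] at hn
    exact (Nat.odd_mul.1 hn).2
  · exact ⟨c, 1, 1, hc, odd_one, by rw [hf, one_pow, mul_one], Or.inr ⟨rfl, by rw [hf, natDegree_C]⟩⟩

/-- Squarefree divisors of the product of two forms. -/
theorem dvd_dat {k : Type} [Field k] {A f g : k[X]} {n : ℕ} {u v w : k} {p q : k[X]} {i j : ℕ}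
    (hA : Squarefree A) (hf : Dat f n u p i) (hg : Dat g n v q j) (hw : w ≠ 0)
    (h : A ∣ C w * (f * g)) :
    ∃ (c : k) (x y : Fin 2), c ≠ 0 ∧ A = C c * (p ^ (x : ℕ) * q ^ (y : ℕ)) := by
  have h1 : A ∣ (p * q) ^ (i + j + 1) := by
    have e : C w * (f * g) = C (w * u * v) * (p ^ i * q ^ j) := by
      rw [hf.2.2.1, hg.2.2.1, C_mul, C_mul]; ring
    rw [e] at h
    refine (dvd_unit_mul (mul_ne_zero (mul_ne_zero hw hf.1) hg.1) h).trans ?_
    rw [mul_pow]
    exact mul_dvd_mul (pow_dvd_pow _ (by omega)) (pow_dvd_pow _ (by omega))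
  have h3 : A ∣ p * q := (hA.dvd_pow_iff_dvd (by omega)).1 h1
  rcases hf.2.2.2 with hp | hp <;> rcases hg.2.2.2 with hq | hq
  · exact dvd_irr2 hp.1 hq.1 one_ne_zero (by rw [C_1, one_mul]; exact h3)
  · rw [hq.1, mul_one] at h3
    obtain ⟨c, x, hc, e⟩ := dvd_irr hp.1 h3
    exact ⟨c, x, 0, hc, by rw [e, hq.1, one_pow, mul_one]⟩
  · rw [hp.1, one_mul] at h3
    obtain ⟨c, x, hc, e⟩ := dvd_irr hq.1 h3
    exact ⟨c, 0, x, hc, by rw [e, hp.1, one_pow, one_mul]⟩
  · rw [hp.1, hq.1, mul_one] at h3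
    obtain ⟨c, hc, e⟩ := Polynomial.isUnit_iff.1 (isUnit_of_dvd_one h3)
    exact ⟨c, 0, 0, hc.ne_zero, by rw [← e, hp.1, hq.1, one_pow, mul_one, mul_one]⟩

/-- The degree of a product of two forms modulo two. -/
theorem deg_dat {k : Type} [Field k] {c : k} {u v : k[X]} (x y : Fin 2) (hc : c ≠ 0) (hu : u ≠ 0)
    (hv : v ≠ 0) : (C c * (u ^ (x : ℕ) * v ^ (y : ℕ))).natDegree % 2 =
      ((x : ℕ) * (u.natDegree % 2) + y * (v.natDegree % 2)) % 2 := by
  rw [natDegree_C_mul hc, natDegree_mul (pow_ne_zero _ hu) (pow_ne_zero _ hv), natDegree_pow,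
    natDegree_pow, Nat.add_mod, Nat.mul_mod, Nat.mul_mod (y : ℕ)]
  conv_rhs => rw [Nat.add_mod, Nat.mul_mod, Nat.mul_mod (y : ℕ)]
  simp only [Nat.mod_mod]

/-- The abscissas of the generators. -/
noncomputable def gx {k : Type} [Field k] (α β : k) (p q r : k[X]) : Fin 4 → k[X] :=
  ![0, p ^ 2 - q ^ 2, (p + q) * (p + r), C ((α + β - 1) / (α + β + 1)) * ((p + q) * (p + r))]

/-- The ordinates of the generators. -/
noncomputable def gy {k : Type} [Field k] (α β μ : k) (p q r : k[X]) : Fin 4 → k[X] :=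
  ![0, 0, (p + q) * (p + r) * (q + r), C (μ / (α + β + 1) ^ 2) * ((p + q) * (p + r) * (q - r))]

/-- The rank two criterion, with generators. -/
theorem gens2 {k k' K F : Type} [Field k] [Field k'] [Algebra k k'] [Field K] [Algebra k[X] K]
    [Field F] [Algebra k'[X] F] [IsFractionRing k'[X] F] [Algebra K F] (hT : IsTower k k' K F)
    (h2 : (2 : k) ≠ 0) {α β μ : k} (hα : α ≠ 0) (hβ : β ≠ 0) (hμ : μ ≠ 0)
    (hsq : ((α + β) ^ 2 - 1) * ((α - β) ^ 2 - 1) = μ ^ 2) {p q r : k[X]}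
    (hp : p = C α * q + C β * r) (hco : IsCoprime q r) {n : ℕ} (hn : Odd n)
    (hgood : ∀ f ∈ ({p + q, p - q, p + r, p - r, q + r, q - r} : Set k[X]),
      PowForm f n ∨ ∃ c : k, c ≠ 0 ∧ f = C c)
    (hone : ∀ i j : Fin 6, i ≠ j →
      (![p + q, p - q, p + r, p - r, q + r, q - r] i).natDegree = n ∨
      (![p + q, p - q, p + r, p - r, q + r, q - r] j).natDegree = n) :
    p ^ 2 - q ^ 2 ≠ 0 ∧ p ^ 2 - r ^ 2 ≠ 0 ∧ p ^ 2 - q ^ 2 ≠ p ^ 2 - r ^ 2 ∧
    IsCoprime (p ^ 2 - q ^ 2) (p ^ 2 - r ^ 2) ∧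
    (∀ π : k[X], Irreducible π → π ∣ (p ^ 2 - q ^ 2) * (p ^ 2 - r ^ 2) *
      ((p ^ 2 - q ^ 2) - (p ^ 2 - r ^ 2)) → π.Separable) ∧
    TwoOddFactors (p ^ 2 - q ^ 2) (p ^ 2 - r ^ 2) ∧
    (∀ j, gy α β μ p q r j ^ 2 = gx α β p q r j * (gx α β p q r j - (p ^ 2 - q ^ 2)) *
      (gx α β p q r j - (p ^ 2 - r ^ 2))) ∧
    Generates K F (p ^ 2 - q ^ 2) (p ^ 2 - r ^ 2) (gx α β p q r) (gy α β μ p q r) := by
  obtain ⟨u1, π1, n1, G1⟩ := exists_dat hn (hgood (p + q) (by simp))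
  obtain ⟨u2, π2, n2, G2⟩ := exists_dat hn (hgood (p - q) (by simp))
  obtain ⟨u3, π3, n3, G3⟩ := exists_dat hn (hgood (p + r) (by simp))
  obtain ⟨u4, π4, n4, G4⟩ := exists_dat hn (hgood (p - r) (by simp))
  obtain ⟨u5, π5, n5, G5⟩ := exists_dat hn (hgood (q + r) (by simp))
  obtain ⟨u6, π6, n6, G6⟩ := exists_dat hn (hgood (q - r) (by simp))
  have hn0 : 0 < n := hn.pos
  have hsμ : (α + β) ^ 2 - 1 ≠ 0 := by
    intro h
    rw [h, zero_mul] at hsq
    exact pow_ne_zero 2 hμ hsq.symm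
  have hdμ : (α - β) ^ 2 - 1 ≠ 0 := by
    intro h
    rw [h, mul_zero] at hsq
    exact pow_ne_zero 2 hμ hsq.symm
  have hs1 : α + β + 1 ≠ 0 := by
    intro h
    apply hsμ
    linear_combination (α + β - 1) * h
  have hs2 : α + β - 1 ≠ 0 := by
    intro h
    apply hsμ
    linear_combination (α + β + 1) * h
  have hd1 : α - β + 1 ≠ 0 := by
    intro h
    apply hdμ
    linear_combination (α - β - 1) * h
  have hd2 : α - β - 1 ≠ 0 := by
    intro h
    apply hdμ
    linear_combination (α - β + 1) * h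
  -- the six forms
  have f1 : p + q = C (α + 1) * q + C β * r := by rw [hp, C_add, C_1]; ring
  have f2 : p - q = C (α - 1) * q + C β * r := by rw [hp, C_sub, C_1]; ring
  have f3 : p + r = C α * q + C (β + 1) * r := by rw [hp, C_add, C_1]; ring
  have f4 : p - r = C α * q + C (β - 1) * r := by rw [hp, C_sub, C_1]; ring
  have c12 : IsCoprime (p + q) (p - q) := coprime_forms hco (by
    intro h; apply mul_ne_zero h2 hβ; linear_combination h) f1 f2
  have c13 : IsCoprime (p + q) (p + r) := coprime_forms hco (by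
    intro h; apply hs1; linear_combination h) f1 f3
  have c14 : IsCoprime (p + q) (p - r) := coprime_forms hco (by
    intro h; apply hd1; linear_combination -h) f1 f4
  have c23 : IsCoprime (p - q) (p + r) := coprime_forms hco (by
    intro h; apply hd2; linear_combination h) f2 f3
  have c24 : IsCoprime (p - q) (p - r) := coprime_forms hco (by
    intro h; apply hs2; linear_combination -h) f2 f4
  have c34 : IsCoprime (p + r) (p - r) := coprime_forms hco (by
    intro h; apply mul_ne_zero h2 hα; linear_combination -h) f3 f4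
  have ea : p ^ 2 - q ^ 2 = (p + q) * (p - q) := by ring
  have eb : p ^ 2 - r ^ 2 = (p + r) * (p - r) := by ring
  have ec : (p ^ 2 - q ^ 2) - (p ^ 2 - r ^ 2) = C (-1) * ((q + r) * (q - r)) := by
    rw [C_neg, C_1]; ring
  have hm1 : (-1 : k) ≠ 0 := neg_ne_zero.2 one_ne_zero
  have ha : p ^ 2 - q ^ 2 ≠ 0 := by
    rw [ea]; exact mul_ne_zero G1.fne G2.fne
  have hb : p ^ 2 - r ^ 2 ≠ 0 := by
    rw [eb]; exact mul_ne_zero G3.fne G4.fne
  have hab : p ^ 2 - q ^ 2 ≠ p ^ 2 - r ^ 2 := by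
    rw [← sub_ne_zero, ec]
    exact mul_ne_zero (C_ne_zero.2 hm1) (mul_ne_zero G5.fne G6.fne)
  have N1 := G1.fne
  have N2 := G2.fne
  have N3 := G3.fne
  have N4 := G4.fne
  have N5 := G5.fne
  have N6 := G6.fne
  have da : (p ^ 2 - q ^ 2).natDegree = (p + q).natDegree + (p - q).natDegree := by
    rw [ea, natDegree_mul N1 N2]
  have db : (p ^ 2 - r ^ 2).natDegree = (p + r).natDegree + (p - r).natDegree := by
    rw [eb, natDegree_mul N3 N4]
  have dc : ((p ^ 2 - q ^ 2) - (p ^ 2 - r ^ 2)).natDegree = (q + r).natDegree + (q - r).natDegree := by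
    rw [ec, natDegree_C_mul hm1, natDegree_mul N5 N6]
  have H12 : (p + q).natDegree = n ∨ (p - q).natDegree = n := by simpa using hone 0 1 (by decide)
  have H34 : (p + r).natDegree = n ∨ (p - r).natDegree = n := by simpa using hone 2 3 (by decide)
  -- constants
  set κ := (α + β - 1) / (α + β + 1) with hκ
  set κ1 := (β - α + 1) / (α + β + 1) with hκ1
  set κ2 := (β - α - 1) / (α + β + 1) with hκ2
  set ρ := μ / (α + β + 1) ^ 2 with hρ
  have hκ0 : κ ≠ 0 := div_ne_zero hs2 hs1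
  have hκ10 : κ1 ≠ 0 := div_ne_zero (by
    intro h; apply hd2; linear_combination -h) hs1
  have e1 : C κ * C α - C α + 1 = (C κ1 : k[X]) := by
    rw [← C_mul, ← C_sub, ← C_1, ← C_add]
    congr 1
    rw [hκ, hκ1]; field_simp; ring
  have e2 : C κ * C β + C κ - C β = (-C κ1 : k[X]) := by
    rw [← C_mul, ← C_add, ← C_sub, ← C_neg]
    congr 1
    rw [hκ, hκ1]; field_simp; ring
  have e3 : C κ * C α + C κ - C α = (C κ2 : k[X]) := by
    rw [← C_mul, ← C_add, ← C_sub]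
    congr 1
    rw [hκ, hκ2]; field_simp; ring
  have e4 : C κ * C β - C β + 1 = (-C κ2 : k[X]) := by
    rw [← C_mul, ← C_sub, ← C_1, ← C_add, ← C_neg]
    congr 1
    rw [hκ, hκ2]; field_simp; ring
  have e5 : (C ρ : k[X]) ^ 2 = C κ * C κ1 * C κ2 := by
    rw [← C_mul, ← C_mul, ← C_pow]
    congr 1
    rw [hρ, hκ, hκ1, hκ2]
    field_simp
    linear_combination -hsq
  have g1 : C κ * ((p + q) * (p + r)) - (p ^ 2 - q ^ 2) = C κ1 * ((p + q) * (q - r)) := by
    rw [hp]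
    linear_combination (C α * q + C β * r + q) * (q * e1 + r * e2)
  have g2 : C κ * ((p + q) * (p + r)) - (p ^ 2 - r ^ 2) = C κ2 * ((p + r) * (q - r)) := by
    rw [hp]
    linear_combination (C α * q + C β * r + r) * (q * e3 + r * e4)
  have nR0 : (p + q) * (p + r) ≠ 0 := mul_ne_zero N1 N3
  have nR1 : (p + q) * (p + r) ≠ p ^ 2 - q ^ 2 := by
    intro h
    apply mul_ne_zero N1 N5
    linear_combination h
  have nS0 : C κ * ((p + q) * (p + r)) ≠ 0 := mul_ne_zero (C_ne_zero.2 hκ0) nR0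
  have nS1 : C κ * ((p + q) * (p + r)) ≠ p ^ 2 - q ^ 2 := by
    rw [← sub_ne_zero, g1]
    exact mul_ne_zero (C_ne_zero.2 hκ10) (mul_ne_zero N1 N6)
  refine ⟨ha, hb, hab, ?_, ?_, Or.inl ⟨?_, ?_⟩, ?_, ?_⟩
  · rw [ea, eb]
    exact IsCoprime.mul_left (c13.mul_right c14) (c23.mul_right c24)
  · intro π hπ hd
    rw [ec, ea, eb] at hd
    rcases hπ.prime.dvd_or_dvd hd with h | h
    · rcases hπ.prime.dvd_or_dvd h with h | h
      · rcases hπ.prime.dvd_or_dvd h with h | h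
        · exact G1.sep hπ h
        · exact G2.sep hπ h
      · rcases hπ.prime.dvd_or_dvd h with h | h
        · exact G3.sep hπ h
        · exact G4.sep hπ h
    · rcases hπ.prime.dvd_or_dvd (dvd_unit_mul hm1 h) with h | h
      · exact G5.sep hπ h
      · exact G6.sep hπ h
  · rw [ea]
    rcases H12 with h | h
    · exact G1.odd hn0 h c12
    · rw [mul_comm]
      exact G2.odd hn0 h c12.symm
  · rw [eb]
    rcases H34 with h | h
    · exact G3.odd hn0 h c34
    · rw [mul_comm]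
      exact G4.odd hn0 h c34.symm
  · intro j
    fin_cases j
    · show (0 : k[X]) ^ 2 = 0 * _ * _
      ring
    · show (0 : k[X]) ^ 2 = (p ^ 2 - q ^ 2) * (p ^ 2 - q ^ 2 - (p ^ 2 - q ^ 2)) * _
      ring
    · show ((p + q) * (p + r) * (q + r)) ^ 2 = (p + q) * (p + r) *
        ((p + q) * (p + r) - (p ^ 2 - q ^ 2)) * ((p + q) * (p + r) - (p ^ 2 - r ^ 2))
      ring
    · show (C ρ * ((p + q) * (p + r) * (q - r))) ^ 2 = C κ * ((p + q) * (p + r)) *
        (C κ * ((p + q) * (p + r)) - (p ^ 2 - q ^ 2)) * (C κ * ((p + q) * (p + r)) - (p ^ 2 - r ^ 2))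
      rw [g1, g2]
      linear_combination ((p + q) * (p + r) * (q - r)) ^ 2 * e5
  · intro G hG A B D hA hB hD sA sB sD dA dB dD hinf
    rw [ea] at dA
    rw [eb] at dB
    rw [ec] at dD
    obtain ⟨c1, x0, x1, h1, eA⟩ := dvd_dat (A := A) sA G1 G2
      (one_ne_zero (α := k)) (by rw [C_1, one_mul]; exact dA)
    obtain ⟨c2, y0, y1, h3, eB⟩ := dvd_dat (A := B) sB G3 G4
      (one_ne_zero (α := k)) (by rw [C_1, one_mul]; exact dB)
    obtain ⟨c3, z0, z1, h4, eD⟩ := dvd_dat sD G5 G6 hm1 dD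
    -- the forms modulo squares
    have s1 : SqEq (emb k K F π1) (emb k K F (p + q)) := by
      conv_rhs => rw [G1.2.2.1]
      exact (emb_odd hT h2 G1.1 G1.ne G1.2.1).symm
    have s2 : SqEq (emb k K F π2) (emb k K F (p - q)) := by
      conv_rhs => rw [G2.2.2.1]
      exact (emb_odd hT h2 G2.1 G2.ne G2.2.1).symm
    have s3 : SqEq (emb k K F π3) (emb k K F (p + r)) := by
      conv_rhs => rw [G3.2.2.1]
      exact (emb_odd hT h2 G3.1 G3.ne G3.2.1).symm
    have s4 : SqEq (emb k K F π4) (emb k K F (p - r)) := by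
      conv_rhs => rw [G4.2.2.1]
      exact (emb_odd hT h2 G4.1 G4.ne G4.2.1).symm
    have s5 : SqEq (emb k K F π5) (emb k K F (q + r)) := by
      conv_rhs => rw [G5.2.2.1]
      exact (emb_odd hT h2 G5.1 G5.ne G5.2.1).symm
    have s6 : SqEq (emb k K F π6) (emb k K F (q - r)) := by
      conv_rhs => rw [G6.2.2.1]
      exact (emb_odd hT h2 G6.1 G6.ne G6.2.1).symm
    have hpne : ∀ i, (![π1, π2, π3, π4, π5, π6] : Fin 6 → k[X]) i ≠ 0 := by
      intro i
      fin_cases i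
      · exact G1.ne
      · exact G2.ne
      · exact G3.ne
      · exact G4.ne
      · exact G5.ne
      · exact G6.ne
    clear dA dB dD
    have m2 : ∀ {x y x' y' : k[X]}, SqEq (emb k K F x) (emb k K F x') →
        SqEq (emb k K F y) (emb k K F y') → SqEq (emb k K F (x * y)) (emb k K F (x' * y')) := by
      intro x y x' y' h h'
      rw [map_mul, map_mul]
      exact h.mul h'
    have hT0 := isPt_rep (F := F) hT (hG 0) (p := π1 * π2 * π3 * π4) (q := π1 * π2)
      (by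
        show SqEq _ (emb k K F (if (0 : k[X]) = 0 then _ else _))
        rw [if_pos rfl, ea, eb, ← mul_assoc]
        exact m2 (m2 (m2 s1 s2) s3) s4)
      (by
        show SqEq _ (emb k K F (if (0 : k[X]) = p ^ 2 - q ^ 2 then _ else 0 - (p ^ 2 - q ^ 2)))
        rw [if_neg (Ne.symm ha), ea]
        refine (m2 s1 s2).trans ?_
        have h1 : (0 : k[X]) - (p + q) * (p - q) = C (-1) * ((p + q) * (p - q)) := by
          rw [C_neg, C_1]; ring
        rw [h1]
        exact (emb_C_mul hT h2 hm1 _).symm)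
    have hTa := isPt_rep (F := F) hT (hG 1) (p := π1 * π2) (q := π1 * π2 * π5 * π6)
      (by
        show SqEq _ (emb k K F (if (p ^ 2 - q ^ 2 : k[X]) = 0 then _ else p ^ 2 - q ^ 2))
        rw [if_neg ha, ea]
        exact m2 s1 s2)
      (by
        show SqEq _ (emb k K F (if (p ^ 2 - q ^ 2 : k[X]) = p ^ 2 - q ^ 2 then
          (p ^ 2 - q ^ 2) * (p ^ 2 - q ^ 2 - (p ^ 2 - r ^ 2)) else _))
        rw [if_pos rfl, ec, ea, show (p + q) * (p - q) * (C (-1) * ((q + r) * (q - r))) =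
          C (-1) * ((p + q) * (p - q) * (q + r) * (q - r)) by ring]
        exact (m2 (m2 (m2 s1 s2) s5) s6).trans (emb_C_mul hT h2 hm1 _).symm)
    have hR := isPt_rep (F := F) hT (hG 2) (p := π1 * π3) (q := π1 * π5)
      (by
        show SqEq _ (emb k K F (if (p + q) * (p + r) = 0 then _ else (p + q) * (p + r)))
        rw [if_neg nR0]
        exact m2 s1 s3)
      (by
        show SqEq _ (emb k K F (if (p + q) * (p + r) = p ^ 2 - q ^ 2 then _ else
          (p + q) * (p + r) - (p ^ 2 - q ^ 2)))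
        rw [if_neg nR1, show (p + q) * (p + r) - (p ^ 2 - q ^ 2) = (p + q) * (q + r) by ring]
        exact m2 s1 s5)
    have hS := isPt_rep (F := F) hT (hG 3) (p := π1 * π3) (q := π1 * π6)
      (by
        show SqEq _ (emb k K F (if C κ * ((p + q) * (p + r)) = 0 then _ else
          C κ * ((p + q) * (p + r))))
        rw [if_neg nS0]
        exact (m2 s1 s3).trans (emb_C_mul hT h2 hκ0 _).symm)
      (by
        show SqEq _ (emb k K F (if C κ * ((p + q) * (p + r)) = p ^ 2 - q ^ 2 then _ else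
          C κ * ((p + q) * (p + r)) - (p ^ 2 - q ^ 2)))
        rw [if_neg nS1, g1]
        exact (m2 s1 s6).trans (emb_C_mul hT h2 hκ10 _).symm)
    -- the exponents
    have fin : ∀ x0 x1 y0 y1 z0 z1 : Fin 2, A = C c1 * (π1 ^ (x0 : ℕ) * π2 ^ (x1 : ℕ)) →
        B = C c2 * (π3 ^ (y0 : ℕ) * π4 ^ (y1 : ℕ)) → D = C c3 * (π5 ^ (z0 : ℕ) * π6 ^ (z1 : ℕ)) →
        ((x0 : ℕ) + x1 + (y0 + y1)) % 2 = 0 → ((x0 : ℕ) + x1 + (z0 + z1)) % 2 = 0 →
        ∃ e : Fin 4 → Fin 2,
          Represents K F (A * B) (d0 (algebraMap k[X] K (p ^ 2 - q ^ 2))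
            (algebraMap k[X] K (p ^ 2 - r ^ 2)) (∑ j, (e j : ℕ) • G j)) ∧
          Represents K F (A * D) (d1 (algebraMap k[X] K (p ^ 2 - q ^ 2))
            (algebraMap k[X] K (p ^ 2 - r ^ 2)) (∑ j, (e j : ℕ) • G j)) := by
      intro x0 x1 y0 y1 z0 z1 eA eB eD k1 k2
      refine triple' hT h2 ha hb hab hpne (G := G)
        (M0 := ![![1, 1, 1, 1, 0, 0], ![1, 1, 0, 0, 0, 0], ![1, 0, 1, 0, 0, 0],
          ![1, 0, 1, 0, 0, 0]])
        (M1 := ![![1, 1, 0, 0, 0, 0], ![1, 1, 0, 0, 1, 1], ![1, 0, 0, 0, 1, 0],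
          ![1, 0, 0, 0, 0, 1]]) ?_ h1 h3 h4 (x := ![x0, x1, 0, 0, 0, 0])
        (y := ![0, 0, y0, y1, 0, 0]) (z := ![0, 0, 0, 0, z0, z1]) ?_ ?_ ?_ ?_
      · intro j
        fin_cases j
        · simpa [Fin.prod_univ_six] using hT0
        · simpa [Fin.prod_univ_six] using hTa
        · simpa [Fin.prod_univ_six] using hR
        · simpa [Fin.prod_univ_six] using hS
      · rw [eA]; simp [Fin.prod_univ_six]
      · rw [eB]; simp [Fin.prod_univ_six]
      · rw [eD]; simp [Fin.prod_univ_six]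
      · exact dec2 x0 x1 y0 y1 z0 z1 k1 k2
    have par : ∀ {f : k[X]} {u : k} {π : k[X]} {e : ℕ}, Dat f n u π e →
        (f.natDegree = n ∧ π.natDegree % 2 = 1) ∨ (f.natDegree = 0 ∧ π = 1) := by
      intro f u π e h
      rcases h.2.2.2 with h | h
      · exact Or.inl ⟨h.2.2.2, Nat.odd_iff.1 h.2.2.1⟩
      · exact Or.inr ⟨h.2, h.1⟩
    have O : ∀ i j : Fin 6, i ≠ j →
      ¬ ((![p + q, p - q, p + r, p - r, q + r, q - r] i).natDegree = 0 ∧
      (![p + q, p - q, p + r, p - r, q + r, q - r] j).natDegree = 0) := by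
      rintro i j hij ⟨h, h'⟩
      rcases hone i j hij with h3 | h3 <;> omega
    have dA2 := deg_dat x0 x1 h1 G1.ne G2.ne
    have dB2 := deg_dat y0 y1 h3 G3.ne G4.ne
    have dD2 := deg_dat z0 z1 h4 G5.ne G6.ne
    rw [← eA] at dA2
    rw [← eB] at dB2
    rw [← eD] at dD2
    have dAB : (A * B).natDegree = A.natDegree + B.natDegree := natDegree_mul hA.ne_zero hB.ne_zero
    have dAD : (A * D).natDegree = A.natDegree + D.natDegree := natDegree_mul hA.ne_zero hD.ne_zero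
    have dBD : (B * D).natDegree = B.natDegree + D.natDegree := natDegree_mul hB.ne_zero hD.ne_zero
    have O01 := O 0 1 (by decide)
    have O02 := O 0 2 (by decide)
    have O03 := O 0 3 (by decide)
    have O04 := O 0 4 (by decide)
    have O05 := O 0 5 (by decide)
    have O12 := O 1 2 (by decide)
    have O13 := O 1 3 (by decide)
    have O14 := O 1 4 (by decide)
    have O15 := O 1 5 (by decide)
    have O23 := O 2 3 (by decide)
    have O24 := O 2 4 (by decide)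
    have O25 := O 2 5 (by decide)
    have O34 := O 3 4 (by decide)
    have O35 := O 3 5 (by decide)
    have O45 := O 4 5 (by decide)
    simp only [Matrix.cons_val_zero, Matrix.cons_val_one, Matrix.cons_val] at O01 O02 O03 O04 O05 O12 O13 O14 O15 O23 O24 O25 O34 O35 O45
    unfold InfCond at hinf
    rw [dc, da, db, dAB, dAD, dBD] at hinf
    have two : ∀ m : ℕ, m % 2 < 2 := fun m => Nat.mod_lt m (by norm_num)
    rcases par G1 with ⟨a1, b1⟩ | ⟨a1, b1⟩
    swap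
    · -- the first form is constant
      obtain ⟨a2, b2⟩ := (par G2).resolve_right fun h => O01 ⟨a1, h.1⟩
      obtain ⟨a3, b3⟩ := (par G3).resolve_right fun h => O02 ⟨a1, h.1⟩
      obtain ⟨a4, b4⟩ := (par G4).resolve_right fun h => O03 ⟨a1, h.1⟩
      obtain ⟨a5, b5⟩ := (par G5).resolve_right fun h => O04 ⟨a1, h.1⟩
      obtain ⟨a6, b6⟩ := (par G6).resolve_right fun h => O05 ⟨a1, h.1⟩
      rw [b3, b4, mul_one, mul_one] at dB2
      rw [b5, b6, mul_one, mul_one] at dD2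
      rw [a1, a2, a3, a4, a5, a6] at hinf
      have hm : max (0 + n) (n + n) = n + n := max_eq_right (by omega)
      rw [hm] at hinf
      obtain ⟨-, -, i3⟩ := hinf ⟨n, rfl⟩
      have j := Nat.even_iff.1 (i3 rfl rfl)
      refine fin ⟨(x1 + y0 + y1) % 2, two _⟩ x1 y0 y1 z0 z1 (by rw [eA, b1, one_pow, one_pow]) eB eD
        ?_ ?_
      · show ((x1 + y0 + y1) % 2 + (x1 : ℕ) + (y0 + y1)) % 2 = 0
        omega
      · show ((x1 + y0 + y1) % 2 + (x1 : ℕ) + (z0 + z1)) % 2 = 0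
        omega
    rcases par G2 with ⟨a2, b2⟩ | ⟨a2, b2⟩
    swap
    · obtain ⟨a3, b3⟩ := (par G3).resolve_right fun h => O12 ⟨a2, h.1⟩
      obtain ⟨a4, b4⟩ := (par G4).resolve_right fun h => O13 ⟨a2, h.1⟩
      obtain ⟨a5, b5⟩ := (par G5).resolve_right fun h => O14 ⟨a2, h.1⟩
      obtain ⟨a6, b6⟩ := (par G6).resolve_right fun h => O15 ⟨a2, h.1⟩
      rw [b3, b4, mul_one, mul_one] at dB2
      rw [b5, b6, mul_one, mul_one] at dD2
      rw [a1, a2, a3, a4, a5, a6] at hinf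
      have hm : max (n + 0) (n + n) = n + n := max_eq_right (by omega)
      rw [hm] at hinf
      obtain ⟨-, -, i3⟩ := hinf ⟨n, rfl⟩
      have j := Nat.even_iff.1 (i3 rfl rfl)
      refine fin x0 ⟨(x0 + y0 + y1) % 2, two _⟩ y0 y1 z0 z1 (by rw [eA, b2, one_pow, one_pow]) eB eD
        ?_ ?_
      · show ((x0 : ℕ) + (x0 + y0 + y1) % 2 + (y0 + y1)) % 2 = 0
        omega
      · show ((x0 : ℕ) + (x0 + y0 + y1) % 2 + (z0 + z1)) % 2 = 0
        omega
    rcases par G3 with ⟨a3, b3⟩ | ⟨a3, b3⟩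
    swap
    · obtain ⟨a4, b4⟩ := (par G4).resolve_right fun h => O23 ⟨a3, h.1⟩
      obtain ⟨a5, b5⟩ := (par G5).resolve_right fun h => O24 ⟨a3, h.1⟩
      obtain ⟨a6, b6⟩ := (par G6).resolve_right fun h => O25 ⟨a3, h.1⟩
      rw [b1, b2, mul_one, mul_one] at dA2
      rw [b5, b6, mul_one, mul_one] at dD2
      rw [a1, a2, a3, a4, a5, a6] at hinf
      have hm : max (n + n) (0 + n) = n + n := max_eq_left (by omega)
      rw [hm] at hinf
      obtain ⟨-, i2, -⟩ := hinf ⟨n, rfl⟩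
      have j := Nat.even_iff.1 (i2 rfl rfl)
      refine fin x0 x1 ⟨(x0 + x1 + y1) % 2, two _⟩ y1 z0 z1 eA (by rw [eB, b3, one_pow, one_pow]) eD
        ?_ ?_
      · show ((x0 : ℕ) + x1 + ((x0 + x1 + y1) % 2 + y1)) % 2 = 0
        omega
      · omega
    rcases par G4 with ⟨a4, b4⟩ | ⟨a4, b4⟩
    swap
    · obtain ⟨a5, b5⟩ := (par G5).resolve_right fun h => O34 ⟨a4, h.1⟩
      obtain ⟨a6, b6⟩ := (par G6).resolve_right fun h => O35 ⟨a4, h.1⟩
      rw [b1, b2, mul_one, mul_one] at dA2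
      rw [b5, b6, mul_one, mul_one] at dD2
      rw [a1, a2, a3, a4, a5, a6] at hinf
      have hm : max (n + n) (n + 0) = n + n := max_eq_left (by omega)
      rw [hm] at hinf
      obtain ⟨-, i2, -⟩ := hinf ⟨n, rfl⟩
      have j := Nat.even_iff.1 (i2 rfl rfl)
      refine fin x0 x1 y0 ⟨(x0 + x1 + y0) % 2, two _⟩ z0 z1 eA (by rw [eB, b4, one_pow, one_pow]) eD
        ?_ ?_
      · show ((x0 : ℕ) + x1 + (y0 + (x0 + x1 + y0) % 2)) % 2 = 0
        omega
      · omega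
    rw [b1, b2, mul_one, mul_one] at dA2
    rw [b3, b4, mul_one, mul_one] at dB2
    rcases par G5 with ⟨a5, b5⟩ | ⟨a5, b5⟩
    swap
    · obtain ⟨a6, b6⟩ := (par G6).resolve_right fun h => O45 ⟨a5, h.1⟩
      rw [a1, a2, a3, a4, a5, a6] at hinf
      rw [max_self] at hinf
      obtain ⟨i1, -, -⟩ := hinf ⟨n, rfl⟩
      have j := Nat.even_iff.1 (i1 rfl)
      refine fin x0 x1 y0 y1 ⟨(x0 + x1 + z1) % 2, two _⟩ z1 eA eB (by rw [eD, b5, one_pow, one_pow])
        ?_ ?_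
      · omega
      · show ((x0 : ℕ) + x1 + ((x0 + x1 + z1) % 2 + z1)) % 2 = 0
        omega
    rcases par G6 with ⟨a6, b6⟩ | ⟨a6, b6⟩
    swap
    · rw [a1, a2, a3, a4, a5, a6] at hinf
      rw [max_self] at hinf
      obtain ⟨i1, -, -⟩ := hinf ⟨n, rfl⟩
      have j := Nat.even_iff.1 (i1 rfl)
      refine fin x0 x1 y0 y1 z0 ⟨(x0 + x1 + z0) % 2, two _⟩ eA eB (by rw [eD, b6, one_pow, one_pow])
        ?_ ?_
      · omega
      · show ((x0 : ℕ) + x1 + (z0 + (x0 + x1 + z0) % 2)) % 2 = 0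
        omega
    rw [b5, b6, mul_one, mul_one] at dD2
    rw [a1, a2, a3, a4, a5, a6] at hinf
    rw [max_self] at hinf
    obtain ⟨i1, i2, -⟩ := hinf ⟨n, rfl⟩
    have j := Nat.even_iff.1 (i1 rfl)
    have j' := Nat.even_iff.1 (i2 rfl rfl)
    exact fin x0 x1 y0 y1 z0 z1 eA eB eD (by omega) (by omega)

end Pool.Agent.N181.TD
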